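import Pool.Agent.Q233.JB.Stmts

set_option autoImplicit false

namespace Pool.Agent.Q233.JB

open Finset Filter

theorem taskCoarse : TaskCoarse := by
  classical
  intro m K F c w v hw hv hK hF T hT hTv
  let I : Finset ℕ := (range m).filter fun i => (T ∩ F i).Nonempty
  have hTI : T ⊆ I.biUnion F := by
    intro x hx
    obtain ⟨i, hi, hxi⟩ := mem_biUnion.1 (hT hx)
    exact mem_biUnion.2 ⟨i, mem_filter.2 ⟨hi, ⟨x, mem_inter.2 ⟨hx, hxi⟩⟩⟩, hxi⟩
  have h1 : T.card ≤ I.card * K := by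
    refine (card_le_card hTI).trans (card_biUnion_le_card_mul _ _ _ fun i hi => ?_)
    exact hK i (mem_range.1 (mem_filter.1 hi).1)
  have hdist : ∀ i ∈ I, ∀ j ∈ I, (i : ℝ) - j ≤ v / w + 1 := by
    intro i hi j hj
    obtain ⟨hi1, x, hx⟩ := mem_filter.1 hi
    obtain ⟨hj1, y, hy⟩ := mem_filter.1 hj
    obtain ⟨hxT, hxF⟩ := mem_inter.1 hx
    obtain ⟨hyT, hyF⟩ := mem_inter.1 hy
    have e1 := abs_le.1 (hF i (mem_range.1 hi1) x hxF)
    have e2 := abs_le.1 (hF j (mem_range.1 hj1) y hyF)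
    have e3 := abs_le.1 (hTv x hxT y hyT)
    have e4 : ((i : ℝ) - j) * w ≤ v + w := by nlinarith [e1.1, e1.2, e2.1, e2.2, e3.1, e3.2]
    have e5 : (i : ℝ) - j ≤ (v + w) / w := by rwa [le_div_iff₀ hw]
    rwa [add_div, div_self hw.ne'] at e5
  have hvw : 0 ≤ v / w := div_nonneg hv hw.le
  have h2 : (I.card : ℝ) ≤ v / w + 2 := by
    rcases I.eq_empty_or_nonempty with h | h
    · rw [h]; simp only [card_empty, Nat.cast_zero]; linarith
    · let a := I.min' h
      have ha : a ∈ I := I.min'_mem h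
      have hsub : I ⊆ Icc a (a + ⌊v / w + 1⌋₊) := by
        intro i hi
        rw [mem_Icc]
        refine ⟨I.min'_le i hi, ?_⟩
        have h3 := hdist i hi a ha
        have h4 : a ≤ i := I.min'_le i hi
        have h5 : ((i - a : ℕ) : ℝ) ≤ v / w + 1 := by
          rw [Nat.cast_sub h4]; exact h3
        have h6 : i - a ≤ ⌊v / w + 1⌋₊ := Nat.le_floor h5
        omega
      have h7 := card_le_card hsub
      rw [Nat.card_Icc] at h7
      have h8 : (⌊v / w + 1⌋₊ : ℝ) ≤ v / w + 1 := Nat.floor_le (by linarith)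
      have h9 : (I.card : ℝ) ≤ ⌊v / w + 1⌋₊ + 1 := by
        have : I.card ≤ ⌊v / w + 1⌋₊ + 1 := by omega
        exact_mod_cast this
      linarith
  have h3 : (T.card : ℝ) ≤ (I.card : ℝ) * K := by exact_mod_cast h1
  exact h3.trans (mul_le_mul_of_nonneg_right h2 (Nat.cast_nonneg K))

end Pool.Agent.Q233.JB
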