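import Pool.Agent.Q233.JB.Stmts

set_option autoImplicit false

namespace Pool.Agent.Q233.JB

open Finset Filter

private theorem fr_inj (a b a' b' : ℕ) (ha : 0 < a) (ha' : 0 < a') (_hb : 0 < b)
    (h : b * a' = b' * a) (hg : Nat.gcd a b = Nat.gcd a' b') : a = a' ∧ b = b' := by
  have h1 : Nat.gcd (a * a') (b * a') = Nat.gcd a b * a' := Nat.gcd_mul_right a a' b
  have h2 : Nat.gcd (a' * a) (b' * a) = Nat.gcd a' b' * a := Nat.gcd_mul_right a' a b'
  rw [h, mul_comm a a', h2, ← hg] at h1
  have hpos : 0 < Nat.gcd a b := Nat.gcd_pos_of_pos_left _ ha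
  have h3 : a = a' := Nat.eq_of_mul_eq_mul_left hpos h1
  refine ⟨h3, ?_⟩
  subst h3
  exact Nat.eq_of_mul_eq_mul_right ha h

theorem taskFibre : TaskFibre := by
  intro Q P G S hQ hP hS
  apply Finset.card_le_mul_card_image
  intro r _
  have h1 : (S.filter fun x => ((P + x.2 : ℕ) : ℝ) / ((Q + x.1 : ℕ) : ℝ) = r).card ≤
      (range G).card := by
    apply Finset.card_le_card_of_injOn (fun x => Nat.gcd (Q + x.1) (P + x.2))
    · intro x hx
      rw [Finset.mem_coe, Finset.mem_filter] at hx
      rw [Finset.mem_coe, Finset.mem_range]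
      exact hS x hx.1
    · intro x hx y hy hxy
      rw [Finset.mem_coe, Finset.mem_filter] at hx hy
      simp only at hxy
      have hr := hx.2.trans hy.2.symm
      have hx0 : ((Q + x.1 : ℕ) : ℝ) ≠ 0 := by
        have : 0 < Q + x.1 := by omega
        exact_mod_cast this.ne'
      have hy0 : ((Q + y.1 : ℕ) : ℝ) ≠ 0 := by
        have : 0 < Q + y.1 := by omega
        exact_mod_cast this.ne'
      rw [div_eq_div_iff hx0 hy0] at hr
      have hr' : (P + x.2) * (Q + y.1) = (P + y.2) * (Q + x.1) := by exact_mod_cast hr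
      obtain ⟨e1, e2⟩ := fr_inj (Q + x.1) (P + x.2) (Q + y.1) (P + y.2) (by omega) (by omega)
        (by omega) hr' hxy
      apply Prod.ext
      · omega
      · omega
  rwa [Finset.card_range] at h1

end Pool.Agent.Q233.JB
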