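import Pool.Agent.Q233.JB.Stmts

/-!
# Different fractions with small denominators are separated
-/

set_option autoImplicit false

namespace Pool.Agent.Q233.JB

theorem taskFrac : TaskFrac := by
  intro Q q q' p p' hQ hq hq' hq2 hq2' hne
  have hQ0 : (0 : ℝ) < Q := by exact_mod_cast hQ
  have h1 : (0 : ℝ) < q := by exact_mod_cast hq
  have h2 : (0 : ℝ) < q' := by exact_mod_cast hq'
  have h3 : (q : ℝ) ≤ 2 * Q := by exact_mod_cast hq2
  have h4 : (q' : ℝ) ≤ 2 * Q := by exact_mod_cast hq2'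
  have hz : ((p : ℤ) * q' - p' * q : ℤ) ≠ 0 := by
    intro h
    apply hne
    have h' : (p : ℝ) * q' - p' * q = 0 := by exact_mod_cast h
    rw [div_eq_div_iff h1.ne' h2.ne']
    linarith
  have habs : (1 : ℝ) ≤ |(p : ℝ) * q' - p' * q| := by
    have := Int.one_le_abs hz
    exact_mod_cast this
  have heq : (p : ℝ) / q - (p' : ℝ) / q' = ((p : ℝ) * q' - p' * q) / (q * q') := by
    field_simp
  rw [heq, abs_div, abs_of_pos (mul_pos h1 h2), div_le_div_iff₀ (by positivity) (mul_pos h1 h2)]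
  have h5 : (q : ℝ) * q' ≤ 4 * (Q : ℝ) ^ 2 := by nlinarith
  nlinarith [mul_le_mul_of_nonneg_left habs (show (0 : ℝ) ≤ 4 * (Q : ℝ) ^ 2 by positivity)]

end Pool.Agent.Q233.JB
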