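import Pool.Agent.Q233.JB.Stmts

set_option autoImplicit false

namespace Pool.Agent.Q233.JB

open Finset Filter

/-- the number of `i < n` with `g ∣ A + i` is at most `n / g + 1`. -/
theorem gcd_count (n A g : ℕ) (hg : 1 ≤ g) :
    (((range n).filter fun i => g ∣ A + i).card : ℝ) ≤ n / g + 1 := by
  have hg0 : (0 : ℤ) < (g : ℤ) := by exact_mod_cast hg
  have h1 : ((range n).filter fun i => g ∣ A + i).card ≤
      ((Finset.Ico (A : ℤ) ((A : ℤ) + n)).filter fun x => (g : ℤ) ∣ x).card := by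
    apply Finset.card_le_card_of_injOn (fun i : ℕ => ((A : ℤ) + (i : ℤ)))
    · intro i hi
      simp only [Finset.coe_filter, Finset.mem_range, Set.mem_setOf_eq] at hi
      simp only [Finset.coe_filter, Finset.mem_Ico, Set.mem_setOf_eq]
      refine ⟨⟨by omega, by omega⟩, ?_⟩
      exact_mod_cast hi.2
    · intro i _ j _ hij
      simpa using hij
  have h2 := Int.Ico_filter_dvd_card (a := (A : ℤ)) (b := (A : ℤ) + n) (r := (g : ℤ)) hg0
  have h3 : (((range n).filter fun i => g ∣ A + i).card : ℤ) ≤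
      max (⌈(((A : ℤ) + n : ℤ) : ℚ) / ((g : ℤ) : ℚ)⌉ - ⌈((A : ℤ) : ℚ) / ((g : ℤ) : ℚ)⌉) 0 := by
    rw [← h2]
    exact_mod_cast h1
  have hgq : (0 : ℚ) < (g : ℚ) := by exact_mod_cast hg
  have h4 : (((max (⌈(((A : ℤ) + n : ℤ) : ℚ) / ((g : ℤ) : ℚ)⌉ - ⌈((A : ℤ) : ℚ) / ((g : ℤ) : ℚ)⌉) 0 : ℤ)) : ℚ)
      ≤ n / g + 1 := by
    push_cast
    apply max_le
    · have a1 := Int.ceil_lt_add_one (((A : ℚ) + n) / (g : ℚ))
      have a2 := Int.le_ceil ((A : ℚ) / (g : ℚ))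
      have a3 : ((A : ℚ) + n) / (g : ℚ) = (A : ℚ) / g + n / g := by rw [add_div]
      linarith
    · positivity
  have h5 : ((((range n).filter fun i => g ∣ A + i).card : ℕ) : ℚ) ≤ n / g + 1 := by
    refine le_trans ?_ h4
    exact_mod_cast h3
  have h6 : (((((range n).filter fun i => g ∣ A + i).card : ℕ) : ℚ) : ℝ) ≤ ((n / g + 1 : ℚ) : ℝ) :=
    Rat.cast_le.mpr h5
  push_cast at h6
  exact h6

theorem taskGcd : TaskGcd := by
  intro Q P n G hn hnQ hG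
  have hsub : ((range n ×ˢ range n).filter fun x => G ≤ Nat.gcd (Q + x.1) (P + x.2)) ⊆
      (Finset.Ioo (G - 1) (2 * Q)).biUnion (fun g =>
        ((range n).filter fun i => g ∣ Q + i) ×ˢ ((range n).filter fun j => g ∣ P + j)) := by
    intro x hx
    simp only [Finset.mem_filter, Finset.mem_product, Finset.mem_range] at hx
    obtain ⟨⟨hx1, hx2⟩, hx3⟩ := hx
    simp only [Finset.mem_biUnion, Finset.mem_Ioo, Finset.mem_product, Finset.mem_filter,
      Finset.mem_range]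
    refine ⟨Nat.gcd (Q + x.1) (P + x.2), ⟨by omega, ?_⟩, ⟨hx1, Nat.gcd_dvd_left _ _⟩,
      ⟨hx2, Nat.gcd_dvd_right _ _⟩⟩
    have := Nat.gcd_le_left (P + x.2) (show 0 < Q + x.1 by omega)
    omega
  have h1 : (((range n ×ˢ range n).filter fun x => G ≤ Nat.gcd (Q + x.1) (P + x.2)).card : ℝ) ≤
      ∑ g ∈ Finset.Ioo (G - 1) (2 * Q), ((((range n).filter fun i => g ∣ Q + i) ×ˢ
        ((range n).filter fun j => g ∣ P + j)).card : ℝ) := by
    have := (Finset.card_le_card hsub).trans Finset.card_biUnion_le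
    exact_mod_cast this
  have h2 : ∀ g ∈ Finset.Ioo (G - 1) (2 * Q), ((((range n).filter fun i => g ∣ Q + i) ×ˢ
        ((range n).filter fun j => g ∣ P + j)).card : ℝ) ≤ 2 * (n : ℝ) ^ 2 * ((g : ℝ) ^ 2)⁻¹ + 2 := by
    intro g hg
    rw [Finset.mem_Ioo] at hg
    have hg1 : 1 ≤ g := by omega
    have c1 := gcd_count n Q g hg1
    have c2 := gcd_count n P g hg1
    rw [Finset.card_product]
    push_cast
    have hg0 : (0 : ℝ) < g := by exact_mod_cast hg1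
    have c3 : ((((range n).filter fun i => g ∣ Q + i).card : ℝ)) *
        (((range n).filter fun j => g ∣ P + j).card : ℝ) ≤ ((n : ℝ) / g + 1) * ((n : ℝ) / g + 1) := by
      apply mul_le_mul c1 c2 (by positivity) (by positivity)
    have c4 : 2 * (n : ℝ) ^ 2 * ((g : ℝ) ^ 2)⁻¹ = 2 * ((n : ℝ) / g) ^ 2 := by
      field_simp
    rw [c4]
    nlinarith [sq_nonneg ((n : ℝ) / g - 1)]
  have h3 := Finset.sum_le_sum h2
  have h4 : ∑ g ∈ Finset.Ioo (G - 1) (2 * Q), (2 * (n : ℝ) ^ 2 * ((g : ℝ) ^ 2)⁻¹ + 2) =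
      2 * (n : ℝ) ^ 2 * ∑ g ∈ Finset.Ioo (G - 1) (2 * Q), ((g : ℝ) ^ 2)⁻¹ +
        2 * ((Finset.Ioo (G - 1) (2 * Q)).card : ℝ) := by
    rw [Finset.sum_add_distrib, ← Finset.mul_sum, Finset.sum_const, nsmul_eq_mul]
    ring
  have h5 : ∑ g ∈ Finset.Ioo (G - 1) (2 * Q), ((g : ℝ) ^ 2)⁻¹ ≤ 2 / (G : ℝ) := by
    have := sum_Ioo_inv_sq_le (α := ℝ) (G - 1) (2 * Q)
    have e : (((G - 1 : ℕ) : ℝ) + 1) = G := by
      rw [Nat.cast_sub hG]; simp
    rwa [e] at this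
  have h6 : ((Finset.Ioo (G - 1) (2 * Q)).card : ℝ) ≤ 2 * Q := by
    rw [Nat.card_Ioo]
    have : (2 * Q - (G - 1) - 1 : ℕ) ≤ 2 * Q := by omega
    exact_mod_cast this
  have hn2 : (0 : ℝ) ≤ 2 * (n : ℝ) ^ 2 := by positivity
  have h7 := mul_le_mul_of_nonneg_left h5 hn2
  have h8 : 2 * (n : ℝ) ^ 2 * (2 / (G : ℝ)) = 4 * (n : ℝ) ^ 2 / G := by ring
  linarith

end Pool.Agent.Q233.JB
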