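import Pool.Agent.Q233.JB.Stmts

/-!
# `TaskImage`: the number of different fractions
-/

set_option autoImplicit false

namespace Pool.Agent.Q233.JB

open Finset Filter

theorem taskImage : TaskImage := by
  intro hG hF ε lam hε hε24 hlam hlam4
  have h1 : ∀ᶠ Q : ℕ in atTop, (34 : ℝ) ≤ (Q : ℝ) ^ ε :=
    ((tendsto_rpow_atTop hε).comp tendsto_natCast_atTop_atTop).eventually_ge_atTop 34
  have h2 : ∀ᶠ Q : ℕ in atTop, (64 : ℝ) ≤ (Q : ℝ) ^ (11 / 24 : ℝ) :=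
    ((tendsto_rpow_atTop (by norm_num : (0 : ℝ) < 11 / 24)).comp
      tendsto_natCast_atTop_atTop).eventually_ge_atTop 64
  filter_upwards [h1, h2, eventually_ge_atTop 1] with Q hQ1 hQ2 hQ n P S hn hn1 hnQ hP hS hcard
  have hQ0 : (0 : ℝ) < Q := by exact_mod_cast hQ
  have hQ1' : (1 : ℝ) ≤ Q := by exact_mod_cast hQ
  have hn0 : (1 : ℝ) ≤ n := by exact_mod_cast hn1
  have hEinv : (Q : ℝ) ^ (-ε) = ((Q : ℝ) ^ ε)⁻¹ := Real.rpow_neg hQ0.le ε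
  have hE3 : (Q : ℝ) ^ (-(3 * ε)) = (((Q : ℝ) ^ ε) ^ 3)⁻¹ := by
    rw [Real.rpow_neg hQ0.le, ← Real.rpow_natCast, ← Real.rpow_mul hQ0.le]
    congr 2
    push_cast
    ring
  have hB1 : (Q : ℝ) ^ ε ≤ (Q : ℝ) ^ (1 / 24 : ℝ) := Real.rpow_le_rpow_of_exponent_le hQ1' hε24
  have hA1 : (Q : ℝ) ^ (1 / 2 : ℝ) = (Q : ℝ) ^ (11 / 24 : ℝ) * (Q : ℝ) ^ (1 / 24 : ℝ) := by
    rw [← Real.rpow_add hQ0]; norm_num
  have hD1 : (Q : ℝ) ^ (3 / 4 : ℝ) ≤ (Q : ℝ) ^ (1 - lam) :=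
    Real.rpow_le_rpow_of_exponent_le hQ1' (by linarith)
  have hsq : ((Q : ℝ) ^ (3 / 4 : ℝ)) ^ 2 = Q * (Q : ℝ) ^ (1 / 2 : ℝ) := by
    rw [← Real.rpow_natCast, ← Real.rpow_mul hQ0.le]
    nth_rewrite 2 [← Real.rpow_one (Q : ℝ)]
    rw [← Real.rpow_add hQ0]
    norm_num
  rw [hEinv] at hcard
  rw [hE3]
  generalize hEE : (Q : ℝ) ^ ε = E at *
  have hE0 : 0 < E := by linarith
  have hC1 : 64 * E ≤ (Q : ℝ) ^ (1 / 2 : ℝ) := by
    rw [hA1]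
    exact mul_le_mul hQ2 hB1 hE0.le (by positivity)
  have hn2 : 16 * (Q * E) ≤ (n : ℝ) ^ 2 := by
    have h3 : ((Q : ℝ) ^ (3 / 4 : ℝ)) ^ 2 ≤ (2 * n : ℝ) ^ 2 :=
      pow_le_pow_left₀ (by positivity) (hD1.trans hn) 2
    rw [hsq] at h3
    have h4 : (Q : ℝ) * (64 * E) ≤ Q * (Q : ℝ) ^ (1 / 2 : ℝ) :=
      mul_le_mul_of_nonneg_left hC1 hQ0.le
    nlinarith
  obtain ⟨G, hGdef⟩ : ∃ G : ℕ, G = ⌈16 * E⌉₊ := ⟨_, rfl⟩
  have hG16 : 16 * E ≤ (G : ℝ) := by rw [hGdef]; exact Nat.le_ceil _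
  have hG17 : (G : ℝ) ≤ 17 * E := by
    have := Nat.ceil_lt_add_one (show 0 ≤ 16 * E by positivity)
    rw [hGdef]
    linarith
  have hG1 : 1 ≤ G := by
    have : (1 : ℝ) ≤ G := by linarith
    exact_mod_cast this
  have hg := hG Q P n G hn1 hnQ hG1
  have hsub : S ⊆ (S.filter fun x => Nat.gcd (Q + x.1) (P + x.2) < G) ∪
      ((range n ×ˢ range n).filter fun x => G ≤ Nat.gcd (Q + x.1) (P + x.2)) := by
    intro x hx
    rw [mem_union, mem_filter, mem_filter]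
    rcases lt_or_ge (Nat.gcd (Q + x.1) (P + x.2)) G with h | h
    · exact Or.inl ⟨hx, h⟩
    · exact Or.inr ⟨hS hx, h⟩
  have hc : (S.card : ℝ) ≤ (S.filter fun x => Nat.gcd (Q + x.1) (P + x.2) < G).card +
      ((range n ×ˢ range n).filter fun x => G ≤ Nat.gcd (Q + x.1) (P + x.2)).card := by
    exact_mod_cast (card_le_card hsub).trans (card_union_le _ _)
  have hf := hF Q P G (S.filter fun x => Nat.gcd (Q + x.1) (P + x.2) < G) hQ hP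
    (fun x hx => (mem_filter.1 hx).2)
  have him : ((S.filter fun x => Nat.gcd (Q + x.1) (P + x.2) < G).image
      fun x => ((P + x.2 : ℕ) : ℝ) / ((Q + x.1 : ℕ) : ℝ)).card ≤
      (S.image fun x => ((P + x.2 : ℕ) : ℝ) / ((Q + x.1 : ℕ) : ℝ)).card :=
    card_le_card (image_subset_image (filter_subset _ _))
  have hf' : ((S.filter fun x => Nat.gcd (Q + x.1) (P + x.2) < G).card : ℝ) ≤
      G * ((S.image fun x => ((P + x.2 : ℕ) : ℝ) / ((Q + x.1 : ℕ) : ℝ)).card : ℝ) := by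
    exact_mod_cast hf.trans (Nat.mul_le_mul_left G him)
  generalize ((S.image fun x => ((P + x.2 : ℕ) : ℝ) / ((Q + x.1 : ℕ) : ℝ)).card : ℝ) = I at *
  have hI0 : 0 ≤ I := by
    by_contra hI
    push Not at hI
    have h5 : (G : ℝ) * I < 0 := mul_neg_of_pos_of_neg (by linarith) hI
    have h6 : (0 : ℝ) ≤ ((S.filter fun x => Nat.gcd (Q + x.1) (P + x.2) < G).card : ℝ) := by
      positivity
    linarith
  have hGI : (G : ℝ) * I ≤ 17 * E * I := mul_le_mul_of_nonneg_right hG17 hI0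
  have h7 : 4 * (n : ℝ) ^ 2 / G ≤ (n : ℝ) ^ 2 / E / 4 := by
    rw [div_div, div_le_div_iff₀ (by linarith) (by positivity)]
    nlinarith [sq_nonneg (n : ℝ)]
  have h8 : 4 * (Q : ℝ) ≤ (n : ℝ) ^ 2 / E / 4 := by
    rw [div_div, le_div_iff₀ (by positivity)]
    linarith
  have h9 : (n : ℝ) ^ 2 / E ≤ 34 * E * I := by
    rw [← div_eq_mul_inv] at hcard
    linarith
  rw [div_le_iff₀ hE0] at h9
  rw [← div_eq_mul_inv, div_le_iff₀ (by positivity)]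
  have h10 : 34 * E * I * E ≤ I * E ^ 3 := by
    have : 0 ≤ I * E ^ 2 * (E - 34) := by
      have : 0 ≤ E - 34 := by linarith
      positivity
    nlinarith
  linarith

end Pool.Agent.Q233.JB
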