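import Pool.Agent.Q233.JB.Stmts

set_option autoImplicit false

namespace Pool.Agent.Q233.JB

open Finset Filter

namespace Num

theorem ev (C a b : ℝ) (h : a < b) : ∀ᶠ Q : ℕ in atTop, C * (Q : ℝ) ^ a ≤ (Q : ℝ) ^ b := by
  have h1 : Tendsto (fun Q : ℕ => (Q : ℝ) ^ (b - a)) atTop atTop :=
    (tendsto_rpow_atTop (by linarith)).comp tendsto_natCast_atTop_atTop
  filter_upwards [h1.eventually_ge_atTop C, eventually_ge_atTop 1] with Q hQ h1
  have hQ0 : (0 : ℝ) < Q := by exact_mod_cast h1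
  calc C * (Q : ℝ) ^ a ≤ (Q : ℝ) ^ (b - a) * (Q : ℝ) ^ a := by gcongr
    _ = (Q : ℝ) ^ b := by rw [← Real.rpow_add hQ0]; ring_nf

end Num

theorem taskNum : TaskNum := by
  intro s τ lam ε R hs hs1 hτ hlam hε hR h1 h2 h3
  have hRs : 0 < R ^ s := Real.rpow_pos_of_pos hR s
  filter_upwards [Num.ev (4 * ((12 * R) ^ s * (2 : ℝ) ^ (τ * s)) * (32 / R)) (τ * s) (2 - lam - 3 * ε)
      (by linarith),
    Num.ev (12 / 5 * R ^ s * (32 / R)) (1 + s) (2 - lam - 3 * ε) (by linarith),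
    Num.ev (7 * (8 : ℝ) ^ (1 - s) * (16 / 10) * (R ^ s / R)) (-(lam * (1 - s))) (-(3 * ε)) (by linarith),
    eventually_ge_atTop 1] with Q e1 e2 e3 hQ1
  intro n N r w hn hn' hw hr hN
  have hQ0 : (0 : ℝ) < Q := by exact_mod_cast hQ1
  have hQp : ∀ a : ℝ, 0 < (Q : ℝ) ^ a := fun a => Real.rpow_pos_of_pos hQ0 a
  have hn0 : (0 : ℝ) < n := by
    have := hQp (1 - lam)
    linarith
  have hr0 : 0 < r := by
    rw [hr]
    positivity
  -- lower bound for N
  have hN2 : R / 32 * (Q : ℝ) ^ (2 - lam - 3 * ε) ≤ N := by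
    refine le_trans ?_ hN
    have : (Q : ℝ) ^ (2 - lam - 3 * ε) = (Q : ℝ) ^ (1 - lam) * (Q : ℝ) ^ (1 - 3 * ε) := by
      rw [← Real.rpow_add hQ0]
      ring_nf
    rw [this]
    have h5 := mul_le_mul_of_nonneg_right hn (mul_nonneg hR.le (hQp (1 - 3 * ε)).le)
    nlinarith [h5]
  have hNpos : 0 < N := lt_of_lt_of_le (by have := hQp (2 - lam - 3 * ε); positivity) hN2
  -- the power
  have hpow : (R / r) ^ s = (12 * R) ^ s * (2 : ℝ) ^ (τ * s) * (Q : ℝ) ^ (τ * s) := by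
    have h6 : R / r = (12 * R) * (2 * (Q : ℝ)) ^ τ := by
      rw [hr, Real.rpow_neg (by positivity)]
      field_simp
    rw [h6, Real.mul_rpow (by positivity) (by positivity), ← Real.rpow_mul (by positivity),
      Real.mul_rpow (by norm_num) hQ0.le]
    ring
  have c1 : 4 * (R / r) ^ s ≤ N := by
    refine le_trans ?_ hN2
    rw [hpow]
    have h7 := mul_le_mul_of_nonneg_left e1 (show (0 : ℝ) ≤ R / 32 by positivity)
    refine le_trans (le_of_eq ?_) h7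
    field_simp
  refine ⟨c1, ?_, ?_⟩
  · intro u hu1 hu2
    have hu0 : 0 < u := lt_of_lt_of_le hr0 hu1
    have hus : 0 < u ^ s := Real.rpow_pos_of_pos hu0 s
    have hdiv : (u / R) ^ s = u ^ s / R ^ s := Real.div_rpow hu0.le hR.le s
    have a1 : 12 * (Q : ℝ) ^ 2 * u ≤ 5 * N * (u / R) ^ s := by
      have b1 : u = u ^ (1 - s) * u ^ s := by
        rw [← Real.rpow_add hu0]
        simp
      have b2 : u ^ (1 - s) ≤ (Q : ℝ) ^ (-(1 - s)) := by
        calc u ^ (1 - s) ≤ (1 / (Q : ℝ)) ^ (1 - s) := Real.rpow_le_rpow hu0.le hu2 (by linarith)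
          _ = (Q : ℝ) ^ (-(1 - s)) := by
            rw [one_div, Real.inv_rpow hQ0.le, Real.rpow_neg hQ0.le]
      have b3 : (Q : ℝ) ^ 2 * (Q : ℝ) ^ (-(1 - s)) = (Q : ℝ) ^ (1 + s) := by
        rw [← Real.rpow_natCast, ← Real.rpow_add hQ0]
        congr 1
        push_cast
        ring
      have b4 : 12 * (Q : ℝ) ^ (1 + s) ≤ 5 * N / R ^ s := by
        rw [le_div_iff₀ hRs]
        have h8 := mul_le_mul_of_nonneg_left e2 (show (0 : ℝ) ≤ R / 32 by positivity)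
        have h9 : R / 32 * (12 / 5 * R ^ s * (32 / R) * (Q : ℝ) ^ (1 + s)) =
            12 / 5 * R ^ s * (Q : ℝ) ^ (1 + s) := by
          field_simp
        rw [h9] at h8
        linarith
      calc 12 * (Q : ℝ) ^ 2 * u = 12 * ((Q : ℝ) ^ 2 * u ^ (1 - s)) * u ^ s := by
            conv_lhs => rw [b1]
            ring
        _ ≤ 12 * ((Q : ℝ) ^ 2 * (Q : ℝ) ^ (-(1 - s))) * u ^ s := by gcongr
        _ = 12 * (Q : ℝ) ^ (1 + s) * u ^ s := by rw [b3]
        _ ≤ 5 * N / R ^ s * u ^ s := by gcongr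
        _ = 5 * N * (u / R) ^ s := by rw [hdiv]; ring
    have a2 : 1 ≤ 5 * N * (u / R) ^ s := by
      have b5 : (r / R) ^ s ≤ (u / R) ^ s := by
        apply Real.rpow_le_rpow (by positivity) _ hs.le
        gcongr
      have b6 : (R / r) ^ s * (r / R) ^ s = 1 := by
        rw [← Real.mul_rpow (by positivity) (by positivity)]
        have : R / r * (r / R) = 1 := by field_simp
        rw [this, Real.one_rpow]
      have b7 : 0 < (r / R) ^ s := Real.rpow_pos_of_pos (by positivity) s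
      have b8 : 4 * ((R / r) ^ s * (r / R) ^ s) ≤ N * (r / R) ^ s := by
        have := mul_le_mul_of_nonneg_right c1 b7.le
        linarith
      rw [b6] at b8
      have b9 : N * (r / R) ^ s ≤ N * (u / R) ^ s := by gcongr
      linarith
    linarith
  · intro u hu1 hu2
    have hu0 : 0 < u := lt_of_lt_of_le (by positivity) hu1
    have hus : 0 < u ^ s := Real.rpow_pos_of_pos hu0 s
    have hdiv : (u / R) ^ s = u ^ s / R ^ s := Real.div_rpow hu0.le hR.le s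
    have d1 : 1 ≤ Q * u := by
      rw [div_le_iff₀ hQ0] at hu1
      linarith
    have b1 : u = u ^ (1 - s) * u ^ s := by
      rw [← Real.rpow_add hu0]
      simp
    have hwle : w ≤ 8 * (Q : ℝ) ^ (-lam) := by
      rw [hw, div_le_iff₀ hQ0]
      have : (Q : ℝ) ^ (-lam) * Q = (Q : ℝ) ^ (1 - lam) := by
        nth_rewrite 2 [← Real.rpow_one (Q : ℝ)]
        rw [← Real.rpow_add hQ0]
        ring_nf
      calc 8 * (n : ℝ) ≤ 8 * (Q : ℝ) ^ (1 - lam) := by gcongr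
        _ = 8 * (Q : ℝ) ^ (-lam) * Q := by rw [← this]; ring
    have b2 : u ^ (1 - s) ≤ (8 : ℝ) ^ (1 - s) * (Q : ℝ) ^ (-(lam * (1 - s))) := by
      calc u ^ (1 - s) ≤ (8 * (Q : ℝ) ^ (-lam)) ^ (1 - s) :=
            Real.rpow_le_rpow hu0.le (hu2.trans hwle) (by linarith)
        _ = (8 : ℝ) ^ (1 - s) * (Q : ℝ) ^ (-(lam * (1 - s))) := by
            rw [Real.mul_rpow (by norm_num) (hQp _).le, ← Real.rpow_mul hQ0.le]
            ring_nf
    have b3 : (Q : ℝ) * (Q : ℝ) ^ (-(3 * ε)) = (Q : ℝ) ^ (1 - 3 * ε) := by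
      nth_rewrite 1 [← Real.rpow_one (Q : ℝ)]
      rw [← Real.rpow_add hQ0]
      ring_nf
    -- 7 * 8^(1-s) Q^(-lam(1-s)) ≤ 10/16 * R / R^s * Q^(-3ε)
    have b4 : 7 * ((8 : ℝ) ^ (1 - s) * (Q : ℝ) ^ (-(lam * (1 - s)))) ≤
        10 * (R / 16) / R ^ s * (Q : ℝ) ^ (-(3 * ε)) := by
      have h8 := mul_le_mul_of_nonneg_left e3 (show (0 : ℝ) ≤ 10 * (R / 16) / R ^ s by positivity)
      refine le_trans (le_of_eq ?_) h8
      field_simp
    calc (n : ℝ) * (6 * Q * u + 1) ≤ n * (6 * Q * u + Q * u) := by gcongr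
      _ = n * Q * (7 * u ^ (1 - s)) * u ^ s := by
          conv_lhs => rw [b1]
          ring
      _ ≤ n * Q * (7 * ((8 : ℝ) ^ (1 - s) * (Q : ℝ) ^ (-(lam * (1 - s))))) * u ^ s := by gcongr
      _ ≤ n * Q * (10 * (R / 16) / R ^ s * (Q : ℝ) ^ (-(3 * ε))) * u ^ s := by gcongr
      _ = 10 * (R * n * (Q * (Q : ℝ) ^ (-(3 * ε))) / 16) * (u ^ s / R ^ s) := by ring
      _ = 10 * (R * n * (Q : ℝ) ^ (1 - 3 * ε) / 16) * (u ^ s / R ^ s) := by rw [b3]
      _ ≤ 10 * N * (u ^ s / R ^ s) := by gcongr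
      _ = 10 * N * (u / R) ^ s := by rw [hdiv]

end Pool.Agent.Q233.JB
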