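import Pool.Agent.Q233.JB.Stmts

set_option autoImplicit false

namespace Pool.Agent.Q233.JB

open Finset Filter

theorem taskPairs : TaskPairs := by
  classical
  intro hSep T Q n v hv hn hT hd
  let F : ℕ → Finset ℝ := fun i => T.filter fun x => ∃ p : ℕ, x = (p : ℝ) / ((Q + i : ℕ) : ℝ)
  have h1 : T ⊆ (range n).biUnion F := by
    intro x hx
    obtain ⟨q, p, h2, h3, h4⟩ := hT x hx
    refine Finset.mem_biUnion.mpr ⟨q - Q, Finset.mem_range.mpr (by omega), ?_⟩
    refine Finset.mem_filter.mpr ⟨hx, p, ?_⟩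
    rw [h4, Nat.add_sub_cancel' h2]
  have h2 : ∀ i ∈ range n, ((F i).card : ℝ) ≤ 2 * Q * v + 1 := by
    intro i hi
    rw [Finset.mem_range] at hi
    have hq : 0 < Q + i := by omega
    have hqR : (0 : ℝ) < ((Q + i : ℕ) : ℝ) := by exact_mod_cast hq
    have hq2 : ((Q + i : ℕ) : ℝ) ≤ 2 * Q := by
      have : Q + i ≤ 2 * Q := by omega
      exact_mod_cast this
    have h3 := hSep (F i) (1 / ((Q + i : ℕ) : ℝ)) v (by positivity) hv (by
      intro x hx y hy hxy
      obtain ⟨_, p, rfl⟩ := Finset.mem_filter.mp hx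
      obtain ⟨_, p', rfl⟩ := Finset.mem_filter.mp hy
      have hne : (p : ℤ) - p' ≠ 0 := by
        intro h
        apply hxy
        have : (p : ℤ) = p' := by linarith
        have : p = p' := by exact_mod_cast this
        rw [this]
      have habs : (1 : ℝ) ≤ |(p : ℝ) - p'| := by
        have := Int.one_le_abs hne
        have h5 : ((|(p : ℤ) - p'| : ℤ) : ℝ) = |(p : ℝ) - p'| := by push_cast; rfl
        rw [← h5]
        exact_mod_cast this
      rw [← sub_div, abs_div, abs_of_pos hqR]
      exact div_le_div_of_nonneg_right habs hqR.le) (by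
      intro x hx y hy
      exact hd x (Finset.mem_filter.mp hx).1 y (Finset.mem_filter.mp hy).1)
    refine h3.trans ?_
    rw [div_div_eq_mul_div, div_one]
    nlinarith
  calc (T.card : ℝ) ≤ (((range n).biUnion F).card : ℝ) := by exact_mod_cast Finset.card_le_card h1
    _ ≤ ((∑ i ∈ range n, (F i).card : ℕ) : ℝ) := by exact_mod_cast Finset.card_biUnion_le
    _ = ∑ i ∈ range n, ((F i).card : ℝ) := by push_cast; rfl
    _ ≤ ∑ _i ∈ range n, (2 * Q * v + 1) := Finset.sum_le_sum h2
    _ = n * (2 * Q * v + 1) := by rw [Finset.sum_const, Finset.card_range, nsmul_eq_mul]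

end Pool.Agent.Q233.JB
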