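import Pool.Agent.Q233.JB.Stmts

set_option autoImplicit false

namespace Pool.Agent.Q233.JB

open Finset Filter

theorem taskSep : TaskSep := by
  intro T d v hd hv hsep hdiam
  rcases T.eq_empty_or_nonempty with rfl | hne
  · have : 0 ≤ v / d := div_nonneg hv hd.le
    simpa using by linarith
  · set m := T.min' hne with hm
    have hmT : m ∈ T := T.min'_mem hne
    have hle : ∀ x ∈ T, m ≤ x := fun x hx => T.min'_le x hx
    have hcard : T.card ≤ (range (⌊v / d⌋₊ + 1)).card := by
      apply Finset.card_le_card_of_injOn (fun x => ⌊(x - m) / d⌋₊)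
      · intro x hx
        have hx' : x ∈ T := hx
        simp only [Finset.coe_range, Set.mem_Iio]
        apply Nat.lt_succ_of_le
        apply Nat.floor_mono
        have h1 : x - m ≤ v := (le_abs_self _).trans (hdiam x hx' m hmT)
        exact div_le_div_of_nonneg_right h1 hd.le
      · intro x hx y hy hxy
        have hx' : x ∈ T := hx
        have hy' : y ∈ T := hy
        by_contra hne'
        have h := hsep x hx' y hy' hne'
        have hx0 : 0 ≤ (x - m) / d := div_nonneg (by linarith [hle x hx']) hd.le
        have hy0 : 0 ≤ (y - m) / d := div_nonneg (by linarith [hle y hy']) hd.le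
        have a1 := Nat.floor_le hx0
        have a2 := Nat.lt_floor_add_one ((x - m) / d)
        have b1 := Nat.floor_le hy0
        have b2 := Nat.lt_floor_add_one ((y - m) / d)
        have hxy' : (⌊(x - m) / d⌋₊ : ℝ) = (⌊(y - m) / d⌋₊ : ℝ) := by
          have : ⌊(x - m) / d⌋₊ = ⌊(y - m) / d⌋₊ := hxy
          rw [this]
        have hlt : |(x - m) / d - (y - m) / d| < 1 := by
          rw [abs_lt]; constructor <;> linarith
        have heq : (x - m) / d - (y - m) / d = (x - y) / d := by ring
        rw [heq, abs_div, abs_of_pos hd, div_lt_one hd] at hlt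
        linarith
    rw [Finset.card_range] at hcard
    have h2 : (T.card : ℝ) ≤ (⌊v / d⌋₊ : ℝ) + 1 := by exact_mod_cast hcard
    have h3 := Nat.floor_le (div_nonneg hv hd.le)
    linarith

end Pool.Agent.Q233.JB
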