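import Pool.Agent.Q233.JB.Stmts

/-! The step of the Cantor construction. -/

set_option autoImplicit false

namespace Pool.Agent.Q233.JB

open Finset Filter Metric

/-- many good pairs in all boxes near the diagonal -/
def Hyp (ε : ℝ) (W : ℕ → ℕ → ℕ → Prop) : Prop :=
  ∀ᶠ Q : ℕ in atTop, ∀ P n : ℕ, Q ≤ P → (Q : ℝ) ^ ε ≤ n → n ≤ Q →
    ∃ S : Finset (ℕ × ℕ), S ⊆ range n ×ˢ range n ∧ (∀ x ∈ S, W Q (Q + x.1) (P + x.2)) ∧
      (n : ℝ) ^ 2 * (Q : ℝ) ^ (-ε) ≤ S.card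

/-- the numbers near good fractions -/
def Vs (τ : ℝ) (W : ℕ → ℕ → ℕ → Prop) (j : ℕ) : Set ℝ :=
  {x | ∃ Q q p : ℕ, j ≤ Q ∧ Q ≤ q ∧ q < 2 * Q ∧ W Q q p ∧ |x - (p : ℝ) / q| < (q : ℝ) ^ (-τ)}

theorem step (hGcd : TaskGcd) (hFib : TaskFibre) (hIm : TaskImage) (hSep : TaskSep) (hPr : TaskPairs)
    (hCo : TaskCoarse) (hFr : TaskFrac) (hNum : TaskNum) (s τ : ℝ) (hs : 0 < s) (hτ : 2 ≤ τ) (hτs : τ * s < 2) :
    ∃ ε : ℝ, 0 < ε ∧ ε ≤ 1 ∧ ∀ W : ℕ → ℕ → ℕ → Prop, Hyp ε W → ∀ x0 R : ℝ, 0 < R →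
      closedBall x0 R ⊆ Set.Icc 1 2 → ∀ (j : ℕ) (δ : ℝ), 0 < δ → ∃ (r : ℝ) (F : Finset ℝ), 0 < r ∧ r ≤ δ ∧
        (∀ y ∈ F, closedBall y r ⊆ closedBall x0 R ∧ closedBall y r ⊆ Vs τ W j) ∧
        4 * (R / r) ^ s ≤ F.card ∧
        ∀ (U : Set ℝ) (u : ℝ), 0 < u → (∀ x ∈ U, ∀ y ∈ U, dist x y ≤ u) →
          ∀ (G : Finset ℝ), G ⊆ F → (∀ y ∈ G, (U ∩ closedBall y r).Nonempty) →
            (u < r → G.card ≤ 1) ∧
            (r ≤ u → u ≤ R → (G.card : ℝ) ≤ F.card / (4 * (1 / 40)) * (u / R) ^ s) := by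
  classical
  have hs1 : s < 1 := by nlinarith
  obtain ⟨σ, hσ⟩ : ∃ σ : ℝ, σ = min (min (1 - s) (2 - τ * s)) 1 := ⟨_, rfl⟩
  have hσ0 : 0 < σ := by
    rw [hσ]
    exact lt_min (lt_min (by linarith) (by linarith)) one_pos
  have hσ1 : σ ≤ 1 - s := by rw [hσ]; exact (min_le_left _ _).trans (min_le_left _ _)
  have hσ2 : σ ≤ 2 - τ * s := by rw [hσ]; exact (min_le_left _ _).trans (min_le_right _ _)
  have hσ3 : σ ≤ 1 := by rw [hσ]; exact min_le_right _ _
  obtain ⟨lam, hlam⟩ : ∃ lam : ℝ, lam = σ / 4 := ⟨_, rfl⟩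
  have hlam0 : 0 < lam := by rw [hlam]; positivity
  have hlam1 : lam ≤ 1 / 4 := by rw [hlam]; linarith
  obtain ⟨ε, hε⟩ : ∃ ε : ℝ, ε = lam * (1 - s) / 24 := ⟨_, rfl⟩
  have h1s : 0 < 1 - s := by linarith
  have hls : 0 < lam * (1 - s) := mul_pos hlam0 h1s
  have hls1 : lam * (1 - s) ≤ lam := by nlinarith
  have hε0 : 0 < ε := by rw [hε]; positivity
  have hε1 : ε ≤ 1 / 96 := by rw [hε]; linarith
  refine ⟨ε, hε0, by linarith, fun W hW x0 R hR hball j δ hδ => ?_⟩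
  have hx1 : 1 ≤ x0 - R := (hball (show x0 - R ∈ closedBall x0 R by
    rw [mem_closedBall, Real.dist_eq, show x0 - R - x0 = -R by ring, abs_neg, abs_of_pos hR])).1
  have hx2 : x0 + R ≤ 2 := (hball (show x0 + R ∈ closedBall x0 R by
    rw [mem_closedBall, Real.dist_eq, show x0 + R - x0 = R by ring, abs_of_pos hR])).2
  -- large `Q`
  have hcast := tendsto_natCast_atTop_atTop (R := ℝ)
  have e1 : ∀ᶠ Q : ℕ in atTop, (2 * (Q : ℝ)) ^ (-τ) / 12 ≤ min δ (R / 4) := by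
    have h1 : Tendsto (fun x : ℝ => x ^ (-τ)) atTop (nhds 0) := tendsto_rpow_neg_atTop (by linarith)
    have h2 : Tendsto (fun Q : ℕ => (2 * (Q : ℝ)) ^ (-τ) / 12) atTop (nhds (0 / 12)) :=
      (h1.comp (hcast.const_mul_atTop (by norm_num : (0 : ℝ) < 2))).div_const 12
    rw [zero_div] at h2
    exact (h2.eventually (gt_mem_nhds (lt_min hδ (by linarith)))).mono fun Q hQ => hQ.le
  have e2 : ∀ᶠ Q : ℕ in atTop, 8 * (Q : ℝ) ^ (-lam) ≤ R / 2 := by
    have h1 : Tendsto (fun x : ℝ => x ^ (-lam)) atTop (nhds 0) := tendsto_rpow_neg_atTop hlam0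
    have h2 : Tendsto (fun Q : ℕ => 8 * (Q : ℝ) ^ (-lam)) atTop (nhds (8 * 0)) :=
      (h1.comp hcast).const_mul 8
    rw [mul_zero] at h2
    exact (h2.eventually (gt_mem_nhds (by linarith : (0 : ℝ) < R / 2))).mono fun Q hQ => hQ.le
  have e3 : ∀ᶠ Q : ℕ in atTop, (4 : ℝ) ≤ (Q : ℝ) ^ (1 / 2 : ℝ) :=
    ((tendsto_rpow_atTop (by norm_num : (0 : ℝ) < 1 / 2)).comp hcast).eventually_ge_atTop 4
  obtain ⟨Q, ⟨⟨⟨⟨⟨⟨hQ1, hQ2⟩, hQ3⟩, hQ4⟩, hQ5⟩, hQ6⟩, hQ7⟩⟩ := (((((((hW.and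
    (hIm hGcd hFib ε lam hε0 (by linarith) hlam0 hlam1)).and
    (hNum s τ lam ε R hs hs1 hτ hlam0 hε0 hR (by rw [hε]; linarith) (by rw [hε]; linarith)
      (by rw [hε]; linarith))).and e1).and e2).and e3).and (eventually_ge_atTop (max j 1)))).exists
  have hQj : j ≤ Q := le_trans (le_max_left _ _) hQ7
  have hQn : 1 ≤ Q := le_trans (le_max_right _ _) hQ7
  have hQr : (1 : ℝ) ≤ Q := by exact_mod_cast hQn
  have hQ0 : (0 : ℝ) < Q := by linarith
  obtain ⟨n, hn⟩ : ∃ n : ℕ, n = ⌊(Q : ℝ) ^ (1 - lam)⌋₊ := ⟨_, rfl⟩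
  have hA : (4 : ℝ) ≤ (Q : ℝ) ^ (1 - lam) :=
    hQ6.trans (Real.rpow_le_rpow_of_exponent_le hQr (by linarith))
  have hn1 : (n : ℝ) ≤ (Q : ℝ) ^ (1 - lam) := by rw [hn]; exact Nat.floor_le (by positivity)
  have hn2 : (Q : ℝ) ^ (1 - lam) < n + 1 := by rw [hn]; exact Nat.lt_floor_add_one _
  have hn3 : (3 : ℝ) < n := by linarith
  have hn0 : (0 : ℝ) < n := by linarith
  have hn4 : (Q : ℝ) ^ (1 - lam) ≤ 2 * n := by linarith
  have hnn : 1 ≤ n := by exact_mod_cast (by linarith : (1 : ℝ) ≤ n)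
  have hnQ' : (n : ℝ) ≤ Q := hn1.trans (by
    calc (Q : ℝ) ^ (1 - lam) ≤ (Q : ℝ) ^ (1 : ℝ) := Real.rpow_le_rpow_of_exponent_le hQr (by linarith)
      _ = Q := Real.rpow_one _)
  have hnQ : n ≤ Q := by exact_mod_cast hnQ'
  have hnε : (Q : ℝ) ^ ε ≤ n := by
    have h1 : (Q : ℝ) ^ (1 - lam) = (Q : ℝ) ^ (1 / 2 : ℝ) * (Q : ℝ) ^ (1 / 2 - lam) := by
      rw [← Real.rpow_add hQ0]; congr 1; ring
    have h2 : (Q : ℝ) ^ ε ≤ (Q : ℝ) ^ (1 / 2 - lam) := Real.rpow_le_rpow_of_exponent_le hQr (by linarith)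
    have h3 : 0 < (Q : ℝ) ^ (1 / 2 - lam) := by positivity
    nlinarith
  obtain ⟨r, hr⟩ : ∃ r : ℝ, r = (2 * (Q : ℝ)) ^ (-τ) / 12 := ⟨_, rfl⟩
  obtain ⟨w, hw⟩ : ∃ w : ℝ, w = 8 * n / Q := ⟨_, rfl⟩
  have hr0 : 0 < r := by rw [hr]; positivity
  have hw0 : 0 < w := by rw [hw]; positivity
  have hrδ : r ≤ δ := by rw [hr]; exact hQ4.trans (min_le_left _ _)
  have hrR : r ≤ R / 4 := by rw [hr]; exact hQ4.trans (min_le_right _ _)
  have hwR : w ≤ R / 2 := by
    refine le_trans ?_ hQ5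
    rw [hw, div_le_iff₀ hQ0]
    have h1 : (Q : ℝ) ^ (-lam) * Q = (Q : ℝ) ^ (1 - lam) := by
      rw [← Real.rpow_add_one hQ0.ne']; congr 1; ring
    rw [mul_assoc, h1]
    linarith
  have hr3 : 3 * r < 1 / (4 * (Q : ℝ) ^ 2) := by
    have h1 : (2 * (Q : ℝ)) ^ (-τ) ≤ (2 * (Q : ℝ)) ^ (-(2 : ℝ)) :=
      Real.rpow_le_rpow_of_exponent_le (by linarith) (by linarith)
    have h2 : (2 * (Q : ℝ)) ^ (-(2 : ℝ)) = 1 / (4 * (Q : ℝ) ^ 2) := by
      rw [Real.rpow_neg (by positivity), Real.rpow_two, mul_pow]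
      norm_num
    have h3 : 0 < 1 / (4 * (Q : ℝ) ^ 2) := by positivity
    rw [h2] at h1
    rw [hr]
    linarith
  obtain ⟨m, hm⟩ : ∃ m : ℕ, m = ⌊R / w⌋₊ := ⟨_, rfl⟩
  have hRw : 2 ≤ R / w := by rw [le_div_iff₀ hw0]; linarith
  have hm1 : (m : ℝ) ≤ R / w := by rw [hm]; exact Nat.floor_le (by positivity)
  have hm2 : R / (2 * w) ≤ m := by
    have h1 : R / w < m + 1 := by rw [hm]; exact Nat.lt_floor_add_one _
    have h2 : R / (2 * w) = R / w / 2 := by rw [div_div, mul_comm]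
    rw [h2]
    linarith
  have hmw : (m : ℝ) * w ≤ R := by rwa [le_div_iff₀ hw0] at hm1
  obtain ⟨c, hc⟩ : ∃ c : ℝ, c = x0 - R / 2 := ⟨_, rfl⟩
  have hxi : ∀ i < m, c ≤ c + i * w ∧ c + i * w ≤ x0 + R / 2 := by
    intro i hi
    have h1 : (i : ℝ) * w ≤ m * w := mul_le_mul_of_nonneg_right (by exact_mod_cast hi.le) hw0.le
    have h2 : 0 ≤ (i : ℝ) * w := by positivity
    constructor
    · linarith
    · rw [hc]; linarith
  obtain ⟨K, hK⟩ : ∃ K : ℕ, K = ⌈(n : ℝ) ^ 2 * (Q : ℝ) ^ (-(3 * ε))⌉₊ := ⟨_, rfl⟩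
  have hclus : ∀ i : ℕ, ∃ Fi : Finset ℝ, i < m → Fi.card = K ∧ ∀ y ∈ Fi,
      |y - (c + i * w)| ≤ w / 4 ∧ ∃ q p : ℕ, Q ≤ q ∧ q < Q + n ∧ W Q q p ∧ y = (p : ℝ) / q := by
    intro i
    by_cases hi : i < m
    · obtain ⟨g1, g2⟩ := hxi i hi
      obtain ⟨x, hx⟩ : ∃ x : ℝ, x = c + i * w := ⟨_, rfl⟩
      rw [← hx] at g1 g2
      have g3 : 1 ≤ x := by rw [hc] at g1; linarith
      have g4 : x ≤ 2 := by linarith
      obtain ⟨P, hP⟩ : ∃ P : ℕ, P = ⌊x * Q⌋₊ := ⟨_, rfl⟩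
      have hP1 : (P : ℝ) ≤ x * Q := by rw [hP]; exact Nat.floor_le (by positivity)
      have hP2 : x * Q < P + 1 := by rw [hP]; exact Nat.lt_floor_add_one _
      have hPQ : Q ≤ P := by
        rw [hP]
        exact Nat.le_floor (by nlinarith)
      obtain ⟨S, hS1, hS2, hS3⟩ := hQ1 P n hPQ hnε hnQ
      have hI := hQ2 n P S hn4 hnn hnQ (hQn.trans hPQ) hS1 hS3
      have hKI : K ≤ (S.image fun x => ((P + x.2 : ℕ) : ℝ) / ((Q + x.1 : ℕ) : ℝ)).card := by
        rw [hK]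
        exact Nat.ceil_le.2 hI
      obtain ⟨Fi, hF1, hF2⟩ := Finset.exists_subset_card_eq hKI
      refine ⟨Fi, fun _ => ⟨hF2, fun y hy => ?_⟩⟩
      obtain ⟨z, hz, hzy⟩ := Finset.mem_image.1 (hF1 hy)
      have hz1 := hS1 hz
      rw [Finset.mem_product, Finset.mem_range, Finset.mem_range] at hz1
      refine ⟨?_, Q + z.1, P + z.2, by omega, by omega, hS2 z hz, hzy.symm⟩
      rw [← hx, ← hzy]
      have a1 : (z.1 : ℝ) ≤ n := by exact_mod_cast hz1.1.le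
      have a2 : (z.2 : ℝ) ≤ n := by exact_mod_cast hz1.2.le
      have a3 : (z.1 : ℝ) + 1 ≤ n := by exact_mod_cast hz1.1
      have a4 : (0 : ℝ) ≤ z.1 := Nat.cast_nonneg _
      have a5 : (0 : ℝ) ≤ z.2 := Nat.cast_nonneg _
      have hq0 : (0 : ℝ) < ((Q + z.1 : ℕ) : ℝ) := by push_cast; linarith
      have hqne : ((Q + z.1 : ℕ) : ℝ) ≠ 0 := hq0.ne'
      have a6 : ((P + z.2 : ℕ) : ℝ) / ((Q + z.1 : ℕ) : ℝ) - x =
          (((P : ℝ) - x * Q) + z.2 - x * z.1) / ((Q + z.1 : ℕ) : ℝ) := by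
        rw [eq_div_iff hqne, sub_mul, div_mul_cancel₀ _ hqne]
        push_cast
        ring
      rw [a6, abs_div, abs_of_pos hq0, div_le_iff₀ hq0]
      have a7 : x * z.1 ≤ 2 * (n - 1) := by nlinarith
      have a8 : 0 ≤ x * z.1 := by positivity
      have a9 : |((P : ℝ) - x * Q) + z.2 - x * z.1| ≤ 2 * n := by
        rw [abs_le]
        constructor <;> linarith
      refine a9.trans ?_
      have a10 : w / 4 * Q = 2 * n := by
        rw [hw]
        field_simp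
        ring
      have a11 : w / 4 * Q ≤ w / 4 * ((Q + z.1 : ℕ) : ℝ) := by
        push_cast
        exact mul_le_mul_of_nonneg_left (by linarith) (by positivity)
      linarith
    · exact ⟨∅, fun h => absurd h hi⟩
  choose Fi hFi using hclus
  obtain ⟨F, hF⟩ : ∃ F : Finset ℝ, F = (range m).biUnion Fi := ⟨_, rfl⟩
  have hmemF : ∀ y ∈ F, ∃ i, i < m ∧ y ∈ Fi i := by
    intro y hy
    rw [hF, Finset.mem_biUnion] at hy
    obtain ⟨i, hi, hy⟩ := hy
    exact ⟨i, Finset.mem_range.1 hi, hy⟩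
  have hcard : F.card = m * K := by
    rw [hF, Finset.card_biUnion]
    · rw [Finset.sum_congr rfl (fun i hi => (hFi i (Finset.mem_range.1 hi)).1)]
      simp
    · intro i hi i' hi' hne
      rw [Function.onFun, Finset.disjoint_left]
      intro y hy hy'
      have h1 := ((hFi i (Finset.mem_range.1 hi)).2 y hy).1
      have h2 := ((hFi i' (Finset.mem_range.1 hi')).2 y hy').1
      have h3 : |((i : ℝ) - i') * w| ≤ w / 2 := by
        have h4 : ((i : ℝ) - i') * w = (y - (c + i' * w)) - (y - (c + i * w)) := by ring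
        rw [h4]
        exact (abs_sub _ _).trans (by linarith)
      rw [abs_mul, abs_of_pos hw0] at h3
      have h4 : |(i : ℝ) - i'| < 1 := by
        by_contra hcon
        push Not at hcon
        nlinarith
      have h5 : ((i : ℤ) - i' : ℤ) = 0 := by
        rw [← Int.abs_lt_one_iff]
        exact_mod_cast h4
      exact hne (by omega)
  have hK1 : (n : ℝ) ^ 2 * (Q : ℝ) ^ (-(3 * ε)) ≤ K := by rw [hK]; exact Nat.le_ceil _
  have hN : R * n * (Q : ℝ) ^ (1 - 3 * ε) / 16 ≤ (F.card : ℝ) := by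
    rw [hcard]
    push_cast
    have h1 : R * n * (Q : ℝ) ^ (1 - 3 * ε) / 16 = R / (2 * w) * ((n : ℝ) ^ 2 * (Q : ℝ) ^ (-(3 * ε))) := by
      have h2 : (Q : ℝ) ^ (1 - 3 * ε) = Q * (Q : ℝ) ^ (-(3 * ε)) := by
        rw [sub_eq_add_neg, Real.rpow_add hQ0, Real.rpow_one]
      rw [h2, hw]
      field_simp
      ring
    rw [h1]
    exact mul_le_mul hm2 hK1 (by positivity) (Nat.cast_nonneg _)
  obtain ⟨n1, n2, n3⟩ := hQ3 n F.card r w hn4 hn1 hw hr hN
  refine ⟨r, F, hr0, hrδ, fun y hy => ?_, n1, ?_⟩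
  · obtain ⟨i, hi, hyi⟩ := hmemF y hy
    obtain ⟨h1, q, p, h2, h3, h4, h5⟩ := (hFi i hi).2 y hyi
    obtain ⟨g1, g2⟩ := hxi i hi
    constructor
    · intro z hz
      rw [mem_closedBall, Real.dist_eq] at hz ⊢
      have h6 := abs_le.1 hz
      have h7 := abs_le.1 h1
      rw [hc] at g1 h7
      rw [hc] at g2
      rw [abs_le]
      constructor <;> linarith [h6.1, h6.2, h7.1, h7.2]
    · intro z hz
      rw [mem_closedBall, Real.dist_eq] at hz
      refine ⟨Q, q, p, hQj, h2, by omega, h4, ?_⟩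
      rw [← h5]
      have hq0 : (0 : ℝ) < q := by
        have : 0 < q := by omega
        exact_mod_cast this
      have h6 : (2 * (Q : ℝ)) ^ (-τ) ≤ (q : ℝ) ^ (-τ) := by
        refine Real.rpow_le_rpow_of_nonpos hq0 ?_ (by linarith)
        have : q ≤ 2 * Q := by omega
        exact_mod_cast this
      have h7 : 0 < (2 * (Q : ℝ)) ^ (-τ) := by positivity
      rw [hr] at hz
      linarith
  · intro U u hu hU G hG hGU
    have hdist : ∀ y ∈ G, ∀ y' ∈ G, |y - y'| ≤ 2 * r + u := by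
      intro y hy y' hy'
      obtain ⟨a, ha1, ha2⟩ := hGU y hy
      obtain ⟨b, hb1, hb2⟩ := hGU y' hy'
      have h1 := hU a ha1 b hb1
      rw [mem_closedBall, Real.dist_eq] at ha2 hb2
      rw [Real.dist_eq] at h1
      have h2 := abs_le.1 ha2
      have h3 := abs_le.1 hb2
      have h4 := abs_le.1 h1
      rw [abs_le]
      constructor <;> linarith [h2.1, h2.2, h3.1, h3.2, h4.1, h4.2]
    have hsepG : ∀ y ∈ G, ∀ y' ∈ G, y ≠ y' → 1 / (4 * (Q : ℝ) ^ 2) ≤ |y - y'| := by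
      intro y hy y' hy' hne
      obtain ⟨i, hi, hyi⟩ := hmemF y (hG hy)
      obtain ⟨i', hi', hyi'⟩ := hmemF y' (hG hy')
      obtain ⟨-, q, p, h2, h3, -, h5⟩ := (hFi i hi).2 y hyi
      obtain ⟨-, q', p', h2', h3', -, h5'⟩ := (hFi i' hi').2 y' hyi'
      rw [h5, h5'] at hne ⊢
      exact hFr Q q q' p p' hQn (by omega) (by omega) (by omega) (by omega) hne
    constructor
    · intro hur
      rw [Finset.card_le_one]
      intro y hy y' hy'
      by_contra hne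
      have h1 := hsepG y hy y' hy' hne
      have h2 := hdist y hy y' hy'
      linarith
    · intro hru huR
      have hdist3 : ∀ y ∈ G, ∀ y' ∈ G, |y - y'| ≤ 3 * u := fun y hy y' hy' =>
        (hdist y hy y' hy').trans (by linarith)
      have hfin : (F.card : ℝ) / (4 * (1 / 40)) * (u / R) ^ s = 10 * F.card * (u / R) ^ s := by ring
      rw [hfin]
      rcases le_total u (1 / (Q : ℝ)) with h1 | h1
      · refine le_trans ?_ (n2 u hru h1)
        refine (hSep G _ (3 * u) (by positivity) (by positivity) hsepG hdist3).trans (le_of_eq ?_)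
        field_simp
        ring
      · rcases le_total u w with h2 | h2
        · refine le_trans ?_ (n3 u h1 h2)
          refine (hPr hSep G Q n (3 * u) (by positivity) hnQ (fun y hy => ?_) hdist3).trans (le_of_eq ?_)
          · obtain ⟨i, hi, hyi⟩ := hmemF y (hG hy)
            obtain ⟨-, q, p, h4, h5, -, h6⟩ := (hFi i hi).2 y hyi
            exact ⟨q, p, h4, h5, h6⟩
          · ring
        · have h3 := hCo m K Fi c w (3 * u) hw0 (by positivity) (fun i hi => (hFi i hi).1.le)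
            (fun i hi y hy => ((hFi i hi).2 y hy).1.trans (by linarith)) G (by rw [← hF]; exact hG) hdist3
          refine h3.trans ?_
          have h4 : 1 ≤ u / w := by rw [le_div_iff₀ hw0]; linarith
          have h5 : 3 * u / w = 3 * (u / w) := by ring
          have h6 : u / w ≤ 2 * m * (u / R) := by
            have h7 : R / (2 * w) * (u / R) = u / w / 2 := by field_simp
            have h8 : R / (2 * w) * (u / R) ≤ m * (u / R) := mul_le_mul_of_nonneg_right hm2 (by positivity)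
            rw [h7] at h8
            linarith
          have h9 : u / R ≤ (u / R) ^ s := by
            have h10 : u / R ≤ 1 := by rw [div_le_one hR]; exact huR
            calc u / R = (u / R) ^ (1 : ℝ) := (Real.rpow_one _).symm
              _ ≤ (u / R) ^ s := Real.rpow_le_rpow_of_exponent_ge (by positivity) h10 hs1.le
          have hK0 : (0 : ℝ) ≤ K := Nat.cast_nonneg _
          have hm0 : (0 : ℝ) ≤ m := Nat.cast_nonneg _
          calc (3 * u / w + 2) * K ≤ (5 * (u / w)) * K := by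
                apply mul_le_mul_of_nonneg_right _ hK0
                rw [h5]; linarith
            _ ≤ (5 * (2 * m * (u / R))) * K := by
                apply mul_le_mul_of_nonneg_right _ hK0
                linarith
            _ ≤ (5 * (2 * m * (u / R) ^ s)) * K := by
                apply mul_le_mul_of_nonneg_right _ hK0
                have : 2 * (m : ℝ) * (u / R) ≤ 2 * m * (u / R) ^ s :=
                  mul_le_mul_of_nonneg_left h9 (by positivity)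
                linarith
            _ = 10 * F.card * (u / R) ^ s := by
                rw [hcard]
                push_cast
                ring

end Pool.Agent.Q233.JB
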