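import Mathlib

/-!
# Blueprint: Jarník–Besicovitch inside record prime gaps (MP_69be96_nt, Cramér's conjecture)

The real numbers `α` with infinitely many fractions `p / q`, `|α - p / q| < q ^ (-τ)`, such that BOTH `p` and `q` lie in
prime gaps of record length, have Hausdorff dimension at least `2 / τ`. Each `TaskX` below is an elementary independent
lemma; prove `theorem taskX : TaskX` in `Pool/Agent/Q233/JB/X.lean` (namespace `Pool.Agent.Q233.JB`,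
`import Pool.Agent.Q233.JB.Stmts`).
-/

set_option autoImplicit false

namespace Pool.Agent.Q233.JB

open Finset Filter

/-- pairs with a large common divisor. Proof: the pairs with `gcd = g`, `G ≤ g < 2 Q`, are at most
`(n / g + 1) ^ 2 ≤ 2 n ^ 2 / g ^ 2 + 2` (the `i < n` with `g ∣ Q + i` are at most `n / g + 1`); sum over `g`, with
`∑_{g ≥ G} 1 / g ^ 2 ≤ 2 / G`. -/
def TaskGcd : Prop := ∀ Q P n G : ℕ, 1 ≤ n → n ≤ Q → 1 ≤ G →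
  (((range n ×ˢ range n).filter fun x => G ≤ Nat.gcd (Q + x.1) (P + x.2)).card : ℝ) ≤
    4 * (n : ℝ) ^ 2 / G + 4 * Q

/-- a fraction has at most `G` representations with `gcd < G`: on each fibre of the map `x ↦ (P + x.2) / (Q + x.1)` the
gcd is injective (the reduced fraction and the gcd determine numerator and denominator). -/
def TaskFibre : Prop := ∀ (Q P G : ℕ) (S : Finset (ℕ × ℕ)), 1 ≤ Q → 1 ≤ P →
  (∀ x ∈ S, Nat.gcd (Q + x.1) (P + x.2) < G) →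
  S.card ≤ G * (S.image fun x => ((P + x.2 : ℕ) : ℝ) / ((Q + x.1 : ℕ) : ℝ)).card

/-- the number of different fractions. Proof: `G = ⌈16 Q ^ ε⌉`; at most `n ^ 2 Q ^ (-ε) / 4 + 4 Q` of the pairs have
`gcd ≥ G` (`TaskGcd`), and `4 Q ≤ n ^ 2 Q ^ (-ε) / 4` for large `Q`; the others give at least
`n ^ 2 Q ^ (-ε) / (2 G) ≥ n ^ 2 Q ^ (-2 ε) / 34` different values (`TaskFibre`). -/
def TaskImage : Prop := TaskGcd → TaskFibre → ∀ ε lam : ℝ, 0 < ε → ε ≤ 1 / 24 → 0 < lam → lam ≤ 1 / 4 →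
  ∀ᶠ Q : ℕ in atTop, ∀ (n P : ℕ) (S : Finset (ℕ × ℕ)), (Q : ℝ) ^ (1 - lam) ≤ 2 * n → 1 ≤ n → n ≤ Q → 1 ≤ P →
    S ⊆ range n ×ˢ range n → (n : ℝ) ^ 2 * (Q : ℝ) ^ (-ε) ≤ S.card →
    (n : ℝ) ^ 2 * (Q : ℝ) ^ (-(3 * ε)) ≤
      ((S.image fun x => ((P + x.2 : ℕ) : ℝ) / ((Q + x.1 : ℕ) : ℝ)).card : ℝ)

/-- separated points in an interval -/
def TaskSep : Prop := ∀ (T : Finset ℝ) (d v : ℝ), 0 < d → 0 ≤ v → (∀ x ∈ T, ∀ y ∈ T, x ≠ y → d ≤ |x - y|) →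
  (∀ x ∈ T, ∀ y ∈ T, |x - y| ≤ v) → (T.card : ℝ) ≤ v / d + 1

/-- fractions with the denominators `Q ≤ q < Q + n` in an interval of length `v`: for each `q` the `p` are separated by
`1` and in an interval of length `q v ≤ 2 Q v` (use `TaskSep` for the set of the `p`, or directly) -/
def TaskPairs : Prop := TaskSep → ∀ (T : Finset ℝ) (Q n : ℕ) (v : ℝ), 0 ≤ v → n ≤ Q →
  (∀ x ∈ T, ∃ q p : ℕ, Q ≤ q ∧ q < Q + n ∧ x = (p : ℝ) / q) →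
  (∀ x ∈ T, ∀ y ∈ T, |x - y| ≤ v) → (T.card : ℝ) ≤ n * (2 * Q * v + 1)

/-- points from clusters of at most `K` points near the points `c + i w`: at most `v / w + 2` clusters meet an interval of
length `v` -/
def TaskCoarse : Prop := ∀ (m K : ℕ) (F : ℕ → Finset ℝ) (c w v : ℝ), 0 < w → 0 ≤ v →
  (∀ i < m, (F i).card ≤ K) → (∀ i < m, ∀ x ∈ F i, |x - (c + i * w)| ≤ w / 2) →
  ∀ T : Finset ℝ, T ⊆ (range m).biUnion F → (∀ x ∈ T, ∀ y ∈ T, |x - y| ≤ v) → (T.card : ℝ) ≤ (v / w + 2) * K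

/-- different fractions with denominators at most `2 Q` -/
def TaskFrac : Prop := ∀ Q q q' p p' : ℕ, 1 ≤ Q → 1 ≤ q → 1 ≤ q' → q ≤ 2 * Q → q' ≤ 2 * Q →
  (p : ℝ) / q ≠ (p' : ℝ) / q' → 1 / (4 * (Q : ℝ) ^ 2) ≤ |(p : ℝ) / q - (p' : ℝ) / q'|

/-- the numerical inequalities, for large `Q`. The exponents: `4 (R / r) ^ s` is of order `Q ^ (τ s)`, `N` of order at
least `Q ^ (2 - lam - 3 ε)`. For `u ≤ 1 / Q`: `12 Q ^ 2 u = 12 Q ^ 2 u ^ (1 - s) u ^ s ≤ 12 Q ^ (1 + s) u ^ s`, and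
`1 ≤ (u / r) ^ s`. For `1 / Q ≤ u ≤ w = 8 n / Q ≤ 8 Q ^ (-lam)`: `n (6 Q u + 1) ≤ 7 n Q u` and
`u ^ (1 - s) ≤ (8 Q ^ (-lam)) ^ (1 - s)`, which is much smaller than `Q ^ (-3 ε)`. -/
def TaskNum : Prop := ∀ s τ lam ε R : ℝ, 0 < s → s < 1 → 2 ≤ τ → 0 < lam → 0 < ε → 0 < R →
  3 * ε < lam * (1 - s) → 3 * ε + lam < 1 - s → 3 * ε + lam < 2 - τ * s →
  ∀ᶠ Q : ℕ in atTop, ∀ (n : ℕ) (N r w : ℝ), (Q : ℝ) ^ (1 - lam) ≤ 2 * n → (n : ℝ) ≤ (Q : ℝ) ^ (1 - lam) →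
    w = 8 * n / Q → r = (2 * (Q : ℝ)) ^ (-τ) / 12 → R * n * (Q : ℝ) ^ (1 - 3 * ε) / 16 ≤ N →
    4 * (R / r) ^ s ≤ N ∧
    (∀ u : ℝ, r ≤ u → u ≤ 1 / Q → 12 * (Q : ℝ) ^ 2 * u + 1 ≤ 10 * N * (u / R) ^ s) ∧
    (∀ u : ℝ, 1 / (Q : ℝ) ≤ u → u ≤ w → n * (6 * Q * u + 1) ≤ 10 * N * (u / R) ^ s)

end Pool.Agent.Q233.JB
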